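import Pool.Agent.R441.Ten

/-!
The value of `S_p` at the primitive tenth roots of unity for the primes `p ≡ 21, 29 (mod 40)`.
-/

set_option autoImplicit false

namespace Pool.Agent.Results.MP_10d431_nt.TenthRoots

open Complex Real

/-- `S_p(x) = ∏_{k=1}^{(p-1)/2} (x - e^{2πik²/p})` -/
noncomputable def S (p : ℕ) (x : ℂ) : ℂ :=
  ∏ k ∈ Finset.Icc 1 ((p - 1) / 2), (x - Complex.exp (2 * π * I * (k : ℂ) ^ 2 / p))

/-- `n_p(N)`: the number of integers `1 ≤ k ≤ N` with `(k/p) = -1` -/
def n (p N : ℕ) : ℕ := ((Finset.Icc 1 N).filter (fun k : ℕ => jacobiSym k p = -1)).card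

open Pool.Agent.R441 in
/-- For every primitive tenth root of unity `ζ`: `S_p(ζ) = (-1)^{n_p((p+9)/10)}` for every prime
`p ≡ 21 (mod 40)`, and `S_p(ζ) = (-1)^{n_p((p+1)/10)} ζ²` for every prime `p ≡ 29 (mod 40)`. -/
theorem result (p : ℕ) (hp : p.Prime) (ζ : ℂ) (hζ : IsPrimitiveRoot ζ 10) :
    (p % 40 = 21 → S p ζ = (-1) ^ n p ((p + 9) / 10)) ∧
    (p % 40 = 29 → S p ζ = (-1) ^ n p ((p + 1) / 10) * ζ ^ 2) := by
  have : Fact p.Prime := ⟨hp⟩
  have hS : ∀ x, S p x = Pool.Agent.R441.S p x := fun x => rfl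
  have hnn : ∀ M, n p M = nn p M := fun M => rfl
  have h5prime : Fact (Nat.Prime 5) := ⟨by norm_num⟩
  have main : ∀ j : ℕ, (p = 40 * j + 21 ∨ p = 40 * j + 29) →
      quadraticChar (ZMod p) (-1) = 1 ∧ quadraticChar (ZMod p) 2 = -1 ∧
        quadraticChar (ZMod p) 5 = 1 ∧ quadraticChar (ZMod p) 10 = -1 := by
    intro j hj
    have hm : quadraticChar (ZMod p) (-1) = 1 := by
      rw [quadraticChar_one_iff_isSquare neg_one_ne, ZMod.exists_sq_eq_neg_one_iff]
      omega
    have h20 : (2 : ZMod p) ≠ 0 := by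
      have := cast_ne (p := p) (n := 2) (by norm_num) (by omega)
      rwa [Nat.cast_ofNat] at this
    have h50 : (5 : ZMod p) ≠ 0 := by
      have := cast_ne (p := p) (n := 5) (by norm_num) (by omega)
      rwa [Nat.cast_ofNat] at this
    have h2 : quadraticChar (ZMod p) 2 = -1 := by
      rw [quadraticChar_neg_one_iff_not_isSquare, ZMod.exists_sq_eq_two_iff (by omega)]
      omega
    have h5 : quadraticChar (ZMod p) 5 = 1 := by
      rw [quadraticChar_one_iff_isSquare h50]
      have := ZMod.exists_sq_eq_prime_iff_of_mod_four_eq_one (p := p) (q := 5) (by omega) (by norm_num)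
      rw [Nat.cast_ofNat] at this
      rw [this]
      have h1 : (p : ZMod 5) = ((p % 5 : ℕ) : ZMod 5) := by rw [ZMod.natCast_mod]
      rw [h1]
      rcases hj with h | h
      · have : p % 5 = 1 := by omega
        rw [this]
        exact ⟨1, by norm_num⟩
      · have : p % 5 = 4 := by omega
        rw [this]
        exact ⟨2, by norm_num⟩
    refine ⟨hm, h2, h5, ?_⟩
    have : (10 : ZMod p) = 2 * 5 := by norm_num
    rw [this, map_mul, h2, h5]
    norm_num
  -- the primitive tenth root `e(1/10)`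
  have hz0 : IsPrimitiveRoot (ee (1 / (10 : ℕ))) 10 := ee_prim (by norm_num)
  have e10 : ee (1 / 10) = ee (1 / (10 : ℕ)) := by norm_num
  have hneg : ∀ z : ℂ, IsPrimitiveRoot z 10 → IsPrimitiveRoot (-z) 5 := by
    intro z hz
    have h5 : z ^ 5 = -1 := by
      have h1 : z ^ 5 ≠ 1 := hz.pow_ne_one_of_pos_of_lt (by norm_num) (by norm_num)
      have h2 : (z ^ 5) ^ 2 = 1 ^ 2 := by rw [← pow_mul, hz.pow_eq_one, one_pow]
      rcases sq_eq_sq_iff_eq_or_eq_neg.1 h2 with h | h
      · exact absurd h h1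
      · exact h
    have ho : orderOf (-z) = 5 := by
      apply orderOf_eq_prime
      · have : (-z) ^ 5 = -(z ^ 5) := by ring
        rw [this, h5, neg_neg]
      · intro h
        have h1 : z ^ 2 = 1 := by
          have : z = -1 := by linear_combination -h
          rw [this]; norm_num
        exact hz.pow_ne_one_of_pos_of_lt (by norm_num) (by norm_num : 2 < 10) h1
    rw [← ho]
    exact IsPrimitiveRoot.orderOf (-z)
  have hco : Nat.Coprime 10 p ∨ p < 21 := by
    by_cases h : p < 21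
    · right; exact h
    · left
      rw [Nat.coprime_comm, Nat.Prime.coprime_iff_not_dvd hp]
      intro h'
      have := Nat.le_of_dvd (by norm_num) h'
      omega
  constructor
  · intro h40
    obtain ⟨j, hj⟩ : ∃ j, p = 40 * j + 21 := ⟨p / 40, by omega⟩
    obtain ⟨hm, h2, h5, h10⟩ := main j (Or.inl hj)
    have hM : (p + 9) / 10 = 4 * j + 3 := by omega
    obtain ⟨P, hP, hs⟩ := ten_sign (p := p) (Or.inl hj) hm h10
    rw [if_pos hj, mul_one, e10] at hs
    have hv := ten_21 (p := p) h40 (hneg _ hz0) hm h2 h5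
    have hP1 : P = 1 := by
      have h1 : ‖Q p 1 (ee (1 / (10 : ℕ)))‖ = 1 := by rcases hv with h | h <;> rw [h] <;> norm_num
      rw [hs, norm_mul, norm_pow, norm_neg, norm_one, one_pow, mul_one, Complex.norm_real,
        Real.norm_eq_abs, abs_of_pos hP] at h1
      exact h1
    rw [hP1, ofReal_one, one_mul] at hs
    have h0 : Pool.Agent.R441.S p (ee (1 / (10 : ℕ))) =
        (((-1) ^ nn p (4 * j + 3) : ℤ) : ℂ) * ee (1 / (10 : ℕ)) ^ 0 := by
      rw [S_eq (by omega), hs]; push_cast; ring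
    have := S_transfer (p := p) (by omega) (by norm_num) (hco.resolve_right (by omega)) _ _ h0 hζ
    rw [hS, this, hM, hnn]
    push_cast
    ring
  · intro h40
    obtain ⟨j, hj⟩ : ∃ j, p = 40 * j + 29 := ⟨p / 40, by omega⟩
    obtain ⟨hm, h2, h5, h10⟩ := main j (Or.inr hj)
    have hM : (p + 1) / 10 = 4 * j + 3 := by omega
    obtain ⟨P, hP, hs⟩ := ten_sign (p := p) (Or.inr hj) hm h10
    rw [if_neg (by omega), e10] at hs
    have hv := ten_29 (p := p) h40 (hneg _ hz0) hm h2 h5
    have hnz : ‖ee (1 / (10 : ℕ)) ^ 2‖ = 1 := by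
      rw [norm_pow, hz0.norm'_eq_one (by norm_num), one_pow]
    have hP1 : P = 1 := by
      have h1 : ‖Q p 1 (ee (1 / (10 : ℕ)))‖ = 1 := by
        rcases hv with h | h
        · rw [h, hnz]
        · rw [h, norm_neg, hnz]
      rw [hs, norm_mul, norm_mul, hnz, norm_pow, norm_neg, norm_one, one_pow, mul_one, mul_one,
        Complex.norm_real, Real.norm_eq_abs, abs_of_pos hP] at h1
      exact h1
    rw [hP1, ofReal_one, one_mul] at hs
    have h0 : Pool.Agent.R441.S p (ee (1 / (10 : ℕ))) =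
        (((-1) ^ nn p (4 * j + 3) : ℤ) : ℂ) * ee (1 / (10 : ℕ)) ^ 2 := by
      rw [S_eq (by omega), hs]; push_cast; ring
    have := S_transfer (p := p) (by omega) (by norm_num) (hco.resolve_right (by omega)) _ _ h0 hζ
    rw [hS, this, hM, hnn]
    push_cast
    ring

end Pool.Agent.Results.MP_10d431_nt.TenthRoots
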